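import Pool.Agent.H630VC.Avg4

/-!
Without the promise of a perfect matching, monotone real gates approximate the vertex cover number
only within a factor `n^(1/2 + o(1))`, and this factor is attained by polynomial size.

(1) On the (unweighted) graphs with `n` vertices every randomised circuit of arbitrary monotone real
gates with a ratio at most `n^(1/2 - η)` has exponential size; with few further gates, for example
`t` NOT gates, the same holds as long as the ratio times `2^t` is at most `n^(1/2 - η)`. (2) Some
monotone circuits with at most `n^12` gates have the ratio `16 (n log n)^(1/2)`.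

Both theorems are proved in the helper folder `Pool/Agent/H630VC` (`Avg4`, `Final3`, `Up4`). Lower
bound: a disjoint union of few cliques given by a random colouring, against all pairs that touch a
small random set. Upper bound: for each `k` few partitions of the vertices into about
`(k / log n)^(1/2)` parts such that for each matching with `k` edges every part of some partition
contains an edge of it; the test whether some partition has an edge in each part is monotone, and if
it succeeds then every vertex cover has at least that many vertices.
-/

namespace Pool.Agent.Results.MP_cff830_lc.RootThreshold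

open H630VC

/-- (1) Let `0 < η ≤ 1/2` and `n` large, and `ρ ≥ 1`. Consider a randomised circuit, that is a
finite family `l r`, `r ∈ R`, of circuits of monotone real gates and arbitrary further gates, that,
on each graph with `n` vertices (unit weights), for at least three quarters of the `r` computes a
number between the size of a least vertex cover and `ρ` times this size, or, for at least three
quarters of the `r`, prints a vertex cover whose size is at most `ρ` times the least size. If `ρ`
times the product of the numbers `w + 1` over the further gates (`w` the number of wires) is at most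
`n^(1/2 - η)` for each `r`, then some circuit of the family has at least `2^(n^(η/4))` gates and
wires into further gates. (2) For all `n ≥ 2` a circuit of monotone real gates with at most `n^12`
gates computes on each graph with `n` vertices a number between the size of a least vertex cover and
`16 (n log n)^(1/2)` times this size. -/
theorem result :
    (∀ η : ℝ, 0 < η → η ≤ 1 / 2 → ∃ N : ℕ, ∀ n : ℕ, N ≤ n → ∀ ρ : ℝ, 1 ≤ ρ →
      ∀ (R : Type) [Fintype R] [Nonempty R] (l : R → List (WGraph (Fin n) → ℝ))
        (q : R → List (List ((WGraph (Fin n) → ℝ) × ℝ))),
      (∀ r, FProg (wInputs (Fin n)) (l r) (q r)) → RSolves ρ l (unit '' Set.univ) →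
      (∀ r, ρ * combos (q r) ≤ (n : ℝ) ^ (1 / 2 - η)) →
      ∃ r, (2 : ℝ) ^ ((n : ℝ) ^ (η / 4)) ≤ (l r).length + wires (q r)) ∧
    (∀ n : ℕ, 2 ≤ n → ∃ (l : List (WGraph (Fin n) → ℝ)) (f : WGraph (Fin n) → ℝ),
      Prog (wInputs (Fin n)) l ∧ l.length ≤ n ^ 12 ∧ f ∈ l ∧
      ∀ G : SimpleGraph (Fin n), ApproxVC (16 * Real.sqrt (n * Real.log n)) f (unit G)) := by
  refine ⟨fun η h1 h2 => asymp_rand_all η h1 h2, fun n hn => ?_⟩
  obtain ⟨l, f, hp, hf, hlen, h⟩ := upper_bound n hn
  refine ⟨l.map fun f => fun x => f x.G, fun x => f x.G, ?_, by simpa using hlen,
    List.mem_map.2 ⟨f, hf, rfl⟩, ?_⟩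
  · apply Prog.comap (fun x : WGraph (Fin n) => x.G) _ hp
    rintro g (⟨u, v, rfl⟩ | ⟨c, rfl⟩)
    · exact Or.inl ⟨u, v, rfl⟩
    · exact Or.inr (Or.inr ⟨c, rfl⟩)
  · intro G
    obtain ⟨⟨C, hC, hCf⟩, h2⟩ := h G
    refine ⟨⟨C, hC, ?_⟩, ?_⟩
    · simpa [unit] using hCf
    · intro C' hC'
      have := h2 C' hC'
      simpa [unit] using this

end Pool.Agent.Results.MP_cff830_lc.RootThreshold
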