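import Pool.Agent.H550R2.Cl.VC

/-!
# Vertex cover and semidefinite programs that are symmetric on quadruples of vertices

A semidefinite program of order `N` reads a graph on the vertex set `W` through the characteristic
vector of its set of edges and accepts it if some positive semidefinite `N × N` matrix satisfies,
together with this vector, the affine equations of the program. Fix `r` disjoint blocks of four
vertices, each of them identified with `(ZMod 2) ^ 2`. A program is symmetric if every translation
of the blocks (the `4 ^ r` permutations of `W` that translate each block and fix the other
vertices) extends, by an orthogonal change of coordinates, to an automorphism of the program. A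
random program is a finite probability space of programs.

(1) For every `ε > 0` there is `C` such that for `r ≥ C` symmetric random programs which
distinguish, with error probability `1 / 3`, the graphs with a vertex cover of at most `3 r`
vertices from the graphs without a vertex cover of less than `(7 / 2 - ε) r` vertices, have order at
least `2 ^ (r / C)`. So no ratio below `7 / 6` is possible for such programs of subexponential
order.

(2) Converse: every program for such a gap problem can be made symmetric at the cost of a factor
`4 ^ r` in its order.

Proof of (1): a sparse random system of `r` equations `x + y + z = b` over `ZMod 2`, once with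
`b = 0` and once with random `b`; the block of an equation consists of its four solutions, and two
solutions are adjacent if they are inconsistent (or belong to the same equation). Symmetric
programs of small order do not distinguish the two graphs. This is the theorem `vc_lower` of the
starting file `Pool/Agent/H550R2/Cl/VC.lean`, which had not been handed in; (2) is `vc_conv`.
-/

set_option autoImplicit false

namespace Pool.Agent.Results.MP_cff830_lc.SymmetricSDPRatio

open Pool.Agent.H550R2.Lift (SDP edPerm gvec)
open Pool.Agent.H550R2.Neg (RSDP)
open Pool.Agent.H550R2.Cl (TransSym SepVC DecVC tp vc_lower vc_conv)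

theorem result :
    (∀ ε : ℝ, 0 < ε → ∃ C : ℕ, 0 < C ∧ ∀ r : ℕ, C ≤ r →
      ∀ (W : Type) (blk : Fin r × (Fin 2 → ZMod 2) ↪ W) (R : RSDP (Sym2 W)),
        TransSym R blk → SepVC R (3 * r) ((7 / 2 - ε) * r) →
        ∀ N : ℕ, (∀ ω, Fintype.card (R.D ω) ≤ N) → 2 ^ (r / C) ≤ N) ∧
    (∀ (r : ℕ) (W : Type) (blk : Fin r × (Fin 2 → ZMod 2) ↪ W) (k K : ℝ)
      (D : Type) [Fintype D] [DecidableEq D] (P : SDP (Sym2 W) D), DecVC P k K →
      ∃ (D' : Type) (_ : Fintype D') (_ : DecidableEq D') (P' : SDP (Sym2 W) D'),
        Fintype.card D' = 4 ^ r * Fintype.card D ∧
        (∀ γ, ∃ O, P'.IsAut (edPerm (tp blk γ)) O) ∧ DecVC P' k K) :=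
  ⟨vc_lower, fun _ _ blk k K D _ _ P hP => vc_conv blk k K D P hP⟩

end Pool.Agent.Results.MP_cff830_lc.SymmetricSDPRatio
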